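import Pool.Agent.H13.CycMod

set_option autoImplicit false

namespace Pool.Agent.Results.MP_84a9df_co.Counter

open Pool.Agent.H13.CycMod Filter Topology

theorem result :
    (∀ K : ℕ, ∃ k : ℕ, K ≤ k ∧ 101 / 100 ≤ cc 6 k / dd 6 k) ∧
    ¬ (∀ l : ℕ, Even l → 4 ≤ l → Tendsto (fun k : ℕ => cc l k / dd l k) atTop (𝓝 1)) := by
  refine ⟨gap, fun h => ?_⟩
  have h1 := h 6 (by decide) (by norm_num)
  have h2 : (1 : ENNReal) < 101 / 100 := by
    rw [ENNReal.lt_div_iff_mul_lt (by norm_num) (by norm_num)]; norm_num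
  obtain ⟨K, hK⟩ := eventually_atTop.1 (h1.eventually (gt_mem_nhds h2))
  obtain ⟨k, hk, hg⟩ := gap K
  exact absurd (hK k hk) (not_lt.2 hg)

end Pool.Agent.Results.MP_84a9df_co.Counter
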